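import Pool.Agent.H37.CPX.Targets

/-!
# CU: unions (helper68, board cpx_modules)
-/

set_option autoImplicit false

namespace Pool.Agent.H68.CPX

open Finset Pool.Agent.H37.CPX

theorem pf_CU : S_CU := by
  classical
  intro N QX QY Tri D cl ι I A a ka M hdis hpp
  have h1 : ∀ i, ∃ E : Finset (Fin N → QX), i ∈ I → (E ⊆ A i ∧ (E.card : ℝ) ≤ a i ∧
      ∀ B, cl B → ∃ E' ⊆ B, (E'.card : ℝ) ≤ ka i * Real.sqrt B.card ∧
        ∀ F ⊆ A i, ∀ G ⊆ B, Disjoint F E → Disjoint G E' → (∀ x ∈ F, ∀ y ∈ G, Tri x y) →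
          |∑ x ∈ F, ∑ y ∈ G, D x y| ≤ M i) := by
    intro i
    by_cases hi : i ∈ I
    · obtain ⟨E, h1, h2, h3⟩ := hpp i hi
      exact ⟨E, fun _ => ⟨h1, h2, h3⟩⟩
    · exact ⟨∅, fun h => absurd h hi⟩
  choose E hE using h1
  refine ⟨I.biUnion E, ?_, ?_, ?_⟩
  · intro x hx
    obtain ⟨i, hi, hx⟩ := mem_biUnion.1 hx
    exact mem_biUnion.2 ⟨i, hi, (hE i hi).1 hx⟩
  · calc ((I.biUnion E).card : ℝ) ≤ ((∑ i ∈ I, (E i).card : ℕ) : ℝ) := by
          exact_mod_cast card_biUnion_le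
      _ = ∑ i ∈ I, ((E i).card : ℝ) := by push_cast; rfl
      _ ≤ ∑ i ∈ I, a i := sum_le_sum fun i hi => (hE i hi).2.1
  intro B hB
  have h2 : ∀ i, ∃ E' : Finset (Fin N → QY), i ∈ I → (E' ⊆ B ∧
      (E'.card : ℝ) ≤ ka i * Real.sqrt B.card ∧
        ∀ F ⊆ A i, ∀ G ⊆ B, Disjoint F (E i) → Disjoint G E' → (∀ x ∈ F, ∀ y ∈ G, Tri x y) →
          |∑ x ∈ F, ∑ y ∈ G, D x y| ≤ M i) := by
    intro i
    by_cases hi : i ∈ I
    · obtain ⟨E', h1, h2, h3⟩ := (hE i hi).2.2 B hB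
      exact ⟨E', fun _ => ⟨h1, h2, h3⟩⟩
    · exact ⟨∅, fun h => absurd h hi⟩
  choose E' hE' using h2
  refine ⟨I.biUnion E', ?_, ?_, ?_⟩
  · intro y hy
    obtain ⟨i, hi, hy⟩ := mem_biUnion.1 hy
    exact (hE' i hi).1 hy
  · calc ((I.biUnion E').card : ℝ) ≤ ((∑ i ∈ I, (E' i).card : ℕ) : ℝ) := by
          exact_mod_cast card_biUnion_le
      _ = ∑ i ∈ I, ((E' i).card : ℝ) := by push_cast; rfl
      _ ≤ ∑ i ∈ I, ka i * Real.sqrt B.card := sum_le_sum fun i hi => (hE' i hi).2.1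
      _ = (∑ i ∈ I, ka i) * Real.sqrt B.card := by rw [sum_mul]
  intro F hF G hG hFE hGE hTri
  have hFu : F = I.biUnion (fun i => F ∩ A i) := by
    ext x
    rw [mem_biUnion]
    constructor
    · intro hx
      obtain ⟨i, hi, hxi⟩ := mem_biUnion.1 (hF hx)
      exact ⟨i, hi, mem_inter.2 ⟨hx, hxi⟩⟩
    · rintro ⟨i, -, hx⟩
      exact (mem_inter.1 hx).1
  have hsum : ∑ x ∈ F, ∑ y ∈ G, D x y = ∑ i ∈ I, ∑ x ∈ F ∩ A i, ∑ y ∈ G, D x y := by
    conv_lhs => rw [hFu]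
    rw [sum_biUnion]
    intro i hi j hj hij
    exact (hdis i hi j hj hij).mono inter_subset_right inter_subset_right
  rw [hsum]
  refine (abs_sum_le_sum_abs _ _).trans (sum_le_sum fun i hi => ?_)
  refine (hE' i hi).2.2 (F ∩ A i) inter_subset_right G hG ?_ ?_ ?_
  · exact (hFE.mono_left inter_subset_left).mono_right (subset_biUnion_of_mem E hi)
  · exact hGE.mono_right (subset_biUnion_of_mem E' hi)
  · intro x hx y hy
    exact hTri x (mem_inter.1 hx).1 y hy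

end Pool.Agent.H68.CPX
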