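import Pool.Agent.H37.CPX.Targets

/-!
# ROO: the root (helper68, board cpx_modules)
-/

set_option autoImplicit false

namespace Pool.Agent.H68.CPX

open Finset Pool.Agent.H37.CPX

lemma cyl_flat {N : ℕ} {Q : Type} (U : Finset (Fin N)) (u : U → Q) (A : Finset (Fin N → Q)) :
    Flat U (cyl U u A) := by
  classical
  intro x hx x' hx' i hi
  unfold cyl at hx hx'
  rw [mem_filter] at hx hx'
  rw [hx.2 ⟨i, hi⟩, hx'.2 ⟨i, hi⟩]

/-- sizes of the cylinders -/
lemma cyl_card (hJ : S_JEN) {N : ℕ} {Q : Type} [Fintype Q] (U : Finset (Fin N)) (u : U → Q)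
    (A : Finset (Fin N → Q)) :
    ((cyl U u A).card : ℝ) ≤ (Fintype.card Q : ℝ) ^ (N - U.card) :=
  (hJ N Q (Real.sqrt (Fintype.card Q)) U U ∅ (cyl U u A) (Real.sqrt_nonneg _)
    (Real.sq_sqrt (Nat.cast_nonneg _)) (Subset.refl _) (cyl_flat U u A)).2.1

/-- the basic estimate: `q = e f`, `16 ≤ f`, `cyl ≤ q ^ (N - u)` -/
lemma spr_of (hJ : S_JEN) {N : ℕ} {Q : Type} [Fintype Q] (A : Finset (Fin N → Q)) (e f c : ℝ)
    (he : 0 < e) (hf : 1 ≤ f) (hef : (Fintype.card Q : ℝ) = e * f) (hc : 4 ≤ f * c)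
    (hA : (Fintype.card Q : ℝ) ^ N ≤ 4 * A.card) : Spr e c ∅ A := by
  intro U hU _ u
  have hUN : U.card ≤ N := by
    have := card_le_univ U
    rwa [Fintype.card_fin] at this
  have h1 := cyl_card hJ U u A
  have hf0 : 0 < f := by linarith
  have hQ0 : (0 : ℝ) < Fintype.card Q := by rw [hef]; positivity
  have h2 : ((cyl U u A).card : ℝ) * e ^ U.card * f ≤ (Fintype.card Q : ℝ) ^ N := by
    have h3 : (Fintype.card Q : ℝ) ^ N =
        (Fintype.card Q : ℝ) ^ (N - U.card) * (e ^ U.card * f ^ U.card) := by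
      rw [← mul_pow, ← hef, ← pow_add, Nat.sub_add_cancel hUN]
    have h4 : f ≤ f ^ U.card := le_self_pow₀ hf (card_pos.2 hU).ne'
    rw [h3]
    calc ((cyl U u A).card : ℝ) * e ^ U.card * f
        ≤ (Fintype.card Q : ℝ) ^ (N - U.card) * e ^ U.card * f := by gcongr
      _ ≤ (Fintype.card Q : ℝ) ^ (N - U.card) * e ^ U.card * f ^ U.card := by gcongr
      _ = (Fintype.card Q : ℝ) ^ (N - U.card) * (e ^ U.card * f ^ U.card) := by ring
  have h5 : ((cyl U u A).card : ℝ) * e ^ U.card * f ≤ c * A.card * f := by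
    calc ((cyl U u A).card : ℝ) * e ^ U.card * f ≤ 4 * A.card := h2.trans hA
      _ ≤ (f * c) * A.card := mul_le_mul_of_nonneg_right hc (Nat.cast_nonneg _)
      _ = c * A.card * f := by ring
  exact le_of_mul_le_mul_right h5 hf0

theorem pf_ROO (hU : S_NUB) (hJ : S_JEN) : S_ROO := by
  intro N m k w0 P z lam s Tri Xs Ys hn hTri hX hY
  have hrho := (hU N m k w0 P z lam 0 0 0 0 0 hn (Nat.zero_le _) (Nat.zero_le _)
    (Nat.zero_le _)).2.2.2.1
  have hP16 := hn.hP
  have hPR : (16 : ℝ) ≤ P := by exact_mod_cast hP16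
  have hcQ : (Fintype.card (Fin (P ^ 16)) : ℝ) = (P : ℝ) ^ 16 := by
    rw [Fintype.card_fin]
    push_cast
    rfl
  have hcT : (Fintype.card (Fin (P ^ 16) → ZMod 2) : ℝ) = (2 : ℝ) ^ (P ^ 16) := by
    rw [Fintype.card_fun, ZMod.card, Fintype.card_fin]
    push_cast
    rfl
  have hNb : s.Nb ∅ = ∅ := by
    unfold Sy.Nb
    exact biUnion_empty
  refine ⟨∅, ∅, Xs, Ys, Subset.refl _, Subset.refl _, hTri, ?_, ?_⟩
  · refine ⟨?_, ?_, ?_, ?_, ?_, ?_, ?_, ?_⟩
    · intro x _ x' _ i hi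
      exact absurd hi (notMem_empty i)
    · intro x _ x' _ i hi
      exact absurd hi (notMem_empty i)
    · rw [hNb]
    · intro J1 _ _ hJ1
      have h1 := s.exp J1 (by omega)
      have h2 : s.Nb J1 \ ∅ = J1.biUnion s.S := by
        rw [sdiff_empty]
        rfl
      rw [h2]
      refine le_trans ?_ h1
      exact Nat.mul_le_mul_right _ (by omega)
    · rw [card_empty]
      exact Nat.zero_le _
    · intro x _ y _ j hj
      exact absurd hj (notMem_empty j)
    · refine spr_of hJ Xs ((P : ℝ) ^ 14) ((P : ℝ) ^ 2) 2 (by positivity)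
        (one_le_pow₀ (by linarith)) ?_ ?_ ?_
      · rw [hcQ, ← pow_add]
      · nlinarith
      · rw [hcQ]
        exact hX
    · have hle : P ^ 8 ≤ P ^ 16 := Nat.pow_le_pow_right (by omega) (by norm_num)
      have hP8 : 1 ≤ P ^ 8 := Nat.one_le_pow _ _ (by omega)
      have hR8 : (2 : ℝ) ≤ 2 ^ (P ^ 8) := by
        have h1 : (2 : ℝ) ^ 1 ≤ 2 ^ (P ^ 8) := pow_le_pow_right₀ (by norm_num) hP8
        simpa using h1
      refine spr_of hJ Ys ((2 : ℝ) ^ (P ^ 16 - P ^ 8)) ((2 : ℝ) ^ (P ^ 8)) (2 ^ (P ^ 8))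
        (by positivity) (by linarith) ?_ ?_ ?_
      · rw [hcT, ← pow_add, Nat.sub_add_cancel hle]
      · nlinarith
      · rw [hcT]
        exact hY
  · have hvol : vol N P ≤ 16 * ((Xs.card : ℝ) * Ys.card) := by
      unfold vol
      calc ((P : ℝ) ^ 16) ^ N * ((2 : ℝ) ^ (P ^ 16)) ^ N ≤ (4 * Xs.card) * (4 * Ys.card) :=
            mul_le_mul hX hY (by positivity) (by positivity)
        _ = 16 * ((Xs.card : ℝ) * Ys.card) := by ring
    have hv0 : 0 ≤ vol N P := by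
      unfold vol
      positivity
    calc rho k P z lam * vol N P ≤ 1 / 16 * vol N P := mul_le_mul_of_nonneg_right hrho hv0
      _ ≤ 1 / 16 * (16 * ((Xs.card : ℝ) * Ys.card)) :=
          mul_le_mul_of_nonneg_left hvol (by norm_num)
      _ = (Xs.card : ℝ) * Ys.card := by ring

end Pool.Agent.H68.CPX
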